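import Pool.Agent.Y64.RR.Stm

/-!
# Schur's finite Rogers–Ramanujan identities
-/

set_option autoImplicit false

namespace Pool.Agent.Y555.RR

open Pool.Agent.Y64.RR Finset

theorem gb_zero (x : ℂ) (n : ℕ) : gb x n 0 = 1 := by
  cases n <;> simp [gb]

theorem gb_succ (x : ℂ) (n k : ℕ) :
    gb x (n + 1) (k + 1) = gb x n (k + 1) + x ^ (n - k) * gb x n k := by
  simp [gb]

theorem gb_eq_zero (x : ℂ) : ∀ (n k : ℕ), n < k → gb x n k = 0
  | 0, 0, h => by omega
  | 0, k + 1, _ => by simp [gb]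
  | n + 1, 0, h => by omega
  | n + 1, k + 1, h => by
      rw [gb_succ, gb_eq_zero x n (k + 1) (by omega), gb_eq_zero x n k (by omega)]
      simp

/-- The second Pascal rule. -/
theorem gb_succ' (x : ℂ) : ∀ (n k : ℕ),
    gb x (n + 1) (k + 1) = gb x n k + x ^ (k + 1) * gb x n (k + 1)
  | 0, 0 => by simp [gb]
  | 0, k + 1 => by simp [gb]
  | n + 1, 0 => by
      have h1 := gb_succ' x n 0
      have h2 := gb_succ x n 0
      rw [gb_succ x (n + 1) 0, gb_zero]
      rw [gb_zero] at h1 h2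
      simp only [Nat.sub_zero] at h2 ⊢
      simp only [zero_add, pow_one] at h1 ⊢
      rw [h1] at h2
      rw [h1]
      have : x * (1 + x * gb x n 1) = x * (gb x n 1 + x ^ n * 1) := by rw [h2]
      linear_combination -this
  | n + 1, k + 1 => by
      have h1 := gb_succ' x n (k + 1)
      have h2 := gb_succ' x n k
      have h3 := gb_succ x n k
      have h4 := gb_succ x n (k + 1)
      rw [gb_succ x (n + 1) (k + 1)]
      have key : x ^ (n - k) * (x ^ (k + 1) * gb x n (k + 1)) =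
          x ^ (k + 2) * (x ^ (n - (k + 1)) * gb x n (k + 1)) := by
        rcases Nat.lt_or_ge n (k + 1) with h | h
        · rw [gb_eq_zero x n (k + 1) h]; simp
        · rw [← mul_assoc, ← mul_assoc, ← pow_add, ← pow_add]
          congr 2
          omega
      have e1 : n + 1 - (k + 1) = n - k := by omega
      rw [e1]
      have e2 : k + 1 + 1 = k + 2 := rfl
      rw [e2] at *
      calc gb x (n + 1) (k + 2) + x ^ (n - k) * gb x (n + 1) (k + 1)
          = (gb x n (k + 1) + x ^ (k + 2) * gb x n (k + 2)) +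
              x ^ (n - k) * (gb x n k + x ^ (k + 1) * gb x n (k + 1)) := by rw [h1, h2]
        _ = (gb x n (k + 1) + x ^ (n - k) * gb x n k) +
              x ^ (k + 2) * (gb x n (k + 2) + x ^ (n - (k + 1)) * gb x n (k + 1)) := by
            linear_combination key
        _ = gb x (n + 1) (k + 1) + x ^ (k + 2) * gb x (n + 1) (k + 2) := by rw [← h3, ← h4]

theorem gbz_neg (x : ℂ) (n : ℕ) (k : ℤ) (h : k < 0) : gbz x n k = 0 := by
  simp [gbz, not_le.mpr h]

theorem gbz_large (x : ℂ) (n : ℕ) (k : ℤ) (h : (n : ℤ) < k) : gbz x n k = 0 := by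
  rw [gbz, if_pos (by omega)]
  exact gb_eq_zero x n _ (by omega)

theorem gbz_nat (x : ℂ) (n k : ℕ) : gbz x n (k : ℤ) = gb x n k := by
  rw [gbz, if_pos (by omega)]; simp

/-- First Pascal rule. -/
theorem P1 (x : ℂ) (n : ℕ) (k : ℤ) :
    gbz x (n + 1) k = gbz x n k + x ^ ((n : ℤ) + 1 - k).toNat * gbz x n (k - 1) := by
  rcases lt_trichotomy k 0 with h | h | h
  · rw [gbz_neg _ _ _ h, gbz_neg _ _ _ h, gbz_neg _ _ _ (by omega)]; simp
  · subst h
    rw [gbz_neg x n (0 - 1) (by omega)]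
    have := gbz_nat x n 0
    have h2 := gbz_nat x (n + 1) 0
    simp only [Nat.cast_zero] at this h2
    rw [this, h2, gb_zero, gb_zero]; simp
  · obtain ⟨j, rfl⟩ : ∃ j : ℕ, k = ((j + 1 : ℕ) : ℤ) := ⟨(k - 1).toNat, by omega⟩
    have e : ((j + 1 : ℕ) : ℤ) - 1 = (j : ℤ) := by push_cast; ring
    rw [e, gbz_nat, gbz_nat, gbz_nat, gb_succ]
    have e2 : ((n : ℤ) + 1 - ((j + 1 : ℕ) : ℤ)).toNat = n - j := by omega
    rw [e2]

/-- Second Pascal rule. -/
theorem P2 (x : ℂ) (n : ℕ) (k : ℤ) :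
    gbz x (n + 1) k = gbz x n (k - 1) + x ^ k.toNat * gbz x n k := by
  rcases lt_trichotomy k 0 with h | h | h
  · rw [gbz_neg _ _ _ h, gbz_neg _ _ _ h, gbz_neg _ _ _ (by omega)]; simp
  · subst h
    rw [gbz_neg x n (0 - 1) (by omega)]
    have := gbz_nat x n 0
    have h2 := gbz_nat x (n + 1) 0
    simp only [Nat.cast_zero] at this h2
    rw [this, h2, gb_zero, gb_zero]; simp
  · obtain ⟨j, rfl⟩ : ∃ j : ℕ, k = ((j + 1 : ℕ) : ℤ) := ⟨(k - 1).toNat, by omega⟩
    have e : ((j + 1 : ℕ) : ℤ) - 1 = (j : ℤ) := by push_cast; ring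
    rw [e, gbz_nat, gbz_nat, gbz_nat, gb_succ']
    simp

/-- The general term. -/
noncomputable def TT (x : ℂ) (e : ℤ → ℕ) (c : ℤ) (n : ℕ) (k : ℤ) : ℂ :=
  (-1 : ℂ) ^ k.natAbs * x ^ e k * gbz x n (((n : ℤ) - 5 * k) / 2 + c)

/-- The telescoping term. -/
noncomputable def UU (x : ℂ) (e : ℤ → ℕ) (c : ℤ) (n : ℕ) (k : ℤ) : ℂ :=
  if ((n : ℤ) - 5 * k) % 2 = 0 then
    (-1 : ℂ) ^ k.natAbs * x ^ e k * (x ^ (((n : ℤ) + 2 - 5 * k) / 2 + c).toNat *
      gbz x n (((n : ℤ) + 2 - 5 * k) / 2 + c))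
  else 0

theorem neg_one_natAbs_succ (k : ℤ) :
    (-1 : ℂ) ^ (k + 1).natAbs = -(-1 : ℂ) ^ k.natAbs := by
  rcases Int.even_or_odd k with h | h
  · rw [(Int.natAbs_even.mpr h).neg_one_pow, (Int.natAbs_odd.mpr h.add_one).neg_one_pow]
  · rw [(Int.natAbs_odd.mpr h).neg_one_pow, (Int.natAbs_even.mpr h.add_one).neg_one_pow]
    simp

theorem key (x : ℂ) (e : ℤ → ℕ) (c : ℤ) (he : ∀ k : ℤ, (e (k + 1) : ℤ) = e k + 5 * k + 3 - 2 * c)
    (n : ℕ) (k : ℤ) :
    TT x e c (n + 2) k - TT x e c (n + 1) k - x ^ (n + 1) * TT x e c n k =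
      UU x e c n k - UU x e c n (k + 1) := by
  rcases Int.emod_two_eq_zero_or_one ((n : ℤ) - 5 * k) with h | h
  · -- even case
    have hU : UU x e c n (k + 1) = 0 := by
      rw [UU, if_neg]
      omega
    rw [hU, UU, if_pos h]
    obtain ⟨f, hf⟩ : ∃ f : ℤ, f = ((n : ℤ) + 2 - 5 * k) / 2 + c := ⟨_, rfl⟩
    rw [← hf]
    have a1 : (((n + 2 : ℕ) : ℤ) - 5 * k) / 2 + c = f := by push_cast; omega
    have a2 : (((n + 1 : ℕ) : ℤ) - 5 * k) / 2 + c = f - 1 := by push_cast; omega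
    have a3 : ((n : ℤ) - 5 * k) / 2 + c = f - 1 := by omega
    unfold TT
    rw [a1, a2, a3]
    have p2 := P2 x (n + 1) f
    have p1 := P1 x n f
    have z : x ^ f.toNat * (x ^ ((n : ℤ) + 1 - f).toNat * gbz x n (f - 1)) =
        x ^ (n + 1) * gbz x n (f - 1) := by
      by_cases h1 : f - 1 < 0
      · rw [gbz_neg _ _ _ h1]; simp
      by_cases h2 : (n : ℤ) < f - 1
      · rw [gbz_large _ _ _ h2]; simp
      rw [← mul_assoc, ← pow_add]
      congr 2
      omega
    have e2 : n + 2 = n + 1 + 1 := rfl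
    rw [e2, p2, p1]
    linear_combination (-1 : ℂ) ^ k.natAbs * x ^ e k * z
  · -- odd case
    have hU : UU x e c n k = 0 := by
      rw [UU, if_neg]
      omega
    rw [hU, UU, if_pos (by omega)]
    obtain ⟨f, hf⟩ : ∃ f : ℤ, f = (((n + 2 : ℕ) : ℤ) - 5 * k) / 2 + c := ⟨_, rfl⟩
    have a1 : (((n + 2 : ℕ) : ℤ) - 5 * k) / 2 + c = f := by rw [hf]
    push_cast at hf
    have a2 : (((n + 1 : ℕ) : ℤ) - 5 * k) / 2 + c = f := by push_cast; omega
    have a3 : ((n : ℤ) - 5 * k) / 2 + c = f - 1 := by omega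
    have a4 : ((n : ℤ) + 2 - 5 * (k + 1)) / 2 + c = f - 2 := by omega
    unfold TT
    rw [a1, a2, a3, a4, neg_one_natAbs_succ]
    have p1 := P1 x (n + 1) f
    have p2 := P2 x n (f - 1)
    have e3 : f - 1 - 1 = f - 2 := by ring
    rw [e3] at p2
    have z : x ^ (((n + 1 : ℕ) : ℤ) + 1 - f).toNat * (x ^ (f - 1).toNat * gbz x n (f - 1)) =
        x ^ (n + 1) * gbz x n (f - 1) := by
      by_cases h1 : f - 1 < 0
      · rw [gbz_neg _ _ _ h1]; simp
      by_cases h2 : (n : ℤ) < f - 1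
      · rw [gbz_large _ _ _ h2]; simp
      rw [← mul_assoc, ← pow_add]
      congr 2
      push_cast
      omega
    have w : x ^ e k * (x ^ (((n + 1 : ℕ) : ℤ) + 1 - f).toNat * gbz x n (f - 2)) =
        x ^ e (k + 1) * (x ^ (f - 2).toNat * gbz x n (f - 2)) := by
      by_cases h1 : f - 2 < 0
      · rw [gbz_neg _ _ _ h1]; simp
      by_cases h2 : (n : ℤ) < f - 2
      · rw [gbz_large _ _ _ h2]; simp
      rw [← mul_assoc, ← pow_add, ← mul_assoc, ← pow_add]
      congr 2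
      have := he k
      push_cast
      omega
    have e2 : n + 2 = n + 1 + 1 := rfl
    rw [e2, p1, p2]
    linear_combination (-1 : ℂ) ^ k.natAbs * x ^ e k * z + (-1 : ℂ) ^ k.natAbs * w

theorem sum_tele (F : ℤ → ℂ) (N : ℕ) :
    ∑ k ∈ Icc (-(N : ℤ)) N, (F k - F (k + 1)) = F (-N) - F (N + 1) := by
  induction N with
  | zero => simp
  | succ N ih =>
    have h1 : Icc (-((N + 1 : ℕ) : ℤ)) ((N + 1 : ℕ) : ℤ) =
        insert (-((N + 1 : ℕ) : ℤ)) (insert ((N + 1 : ℕ) : ℤ) (Icc (-(N : ℤ)) N)) := by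
      ext z
      simp only [mem_Icc, mem_insert]
      push_cast
      omega
    rw [h1, sum_insert, sum_insert, ih]
    · push_cast
      have : -((N : ℤ) + 1) + 1 = -N := by ring
      rw [this]
      ring
    · simp
    · simp only [mem_Icc, mem_insert]
      push_cast
      omega

/-- The sum. -/
noncomputable def RR (x : ℂ) (e : ℤ → ℕ) (c : ℤ) (n : ℕ) : ℂ :=
  ∑ k ∈ Icc (-(n : ℤ)) n, TT x e c n k

theorem RR_eq (x : ℂ) (e : ℤ → ℕ) (c : ℤ) (hc : c = 0 ∨ c = 1) (n N : ℕ) (h : n ≤ N) :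
    RR x e c n = ∑ k ∈ Icc (-(N : ℤ)) N, TT x e c n k := by
  unfold RR
  apply sum_subset
  · intro z hz
    simp only [mem_Icc] at hz ⊢
    omega
  · intro z hz hz'
    simp only [mem_Icc] at hz hz'
    unfold TT
    by_cases h1 : ((n : ℤ) - 5 * z) / 2 + c < 0
    · rw [gbz_neg _ _ _ h1]; simp
    by_cases h2 : (n : ℤ) < ((n : ℤ) - 5 * z) / 2 + c
    · rw [gbz_large _ _ _ h2]; simp
    exfalso
    apply hz'
    rcases hc with hc | hc <;> subst hc <;> omega

theorem RR_rec (x : ℂ) (e : ℤ → ℕ) (c : ℤ) (hc : c = 0 ∨ c = 1)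
    (he : ∀ k : ℤ, (e (k + 1) : ℤ) = e k + 5 * k + 3 - 2 * c) (n : ℕ) :
    RR x e c (n + 2) = RR x e c (n + 1) + x ^ (n + 1) * RR x e c n := by
  have h0 := RR_eq x e c hc n (n + 2) (by omega)
  have h1 := RR_eq x e c hc (n + 1) (n + 2) (by omega)
  have h2 := RR_eq x e c hc (n + 2) (n + 2) (by omega)
  have hs : RR x e c (n + 2) - RR x e c (n + 1) - x ^ (n + 1) * RR x e c n = 0 := by
    rw [h0, h1, h2, mul_sum, ← sum_sub_distrib, ← sum_sub_distrib]
    rw [sum_congr rfl (fun k _ => key x e c he n k), sum_tele]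
    have u1 : UU x e c n (-((n + 2 : ℕ) : ℤ)) = 0 := by
      unfold UU
      split_ifs
      · rw [gbz_large x n]
        · simp
        · push_cast
          rcases hc with hc | hc <;> subst hc <;> omega
      · rfl
    have u2 : UU x e c n (((n + 2 : ℕ) : ℤ) + 1) = 0 := by
      unfold UU
      split_ifs
      · rw [gbz_neg x n]
        · simp
        · push_cast
          rcases hc with hc | hc <;> subst hc <;> omega
      · rfl
    rw [u1, u2]; simp
  linear_combination hs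

theorem StA_proof : StA := by
  intro x n
  have he : ∀ k : ℤ, (((k + 1) * (5 * (k + 1) + 1) / 2).toNat : ℤ) =
      ((k * (5 * k + 1) / 2).toNat : ℤ) + 5 * k + 3 - 2 * 0 := by
    intro k
    have h0 : ∀ j : ℤ, 0 ≤ j * (5 * j + 1) / 2 := by
      intro j
      apply Int.ediv_nonneg _ (by norm_num)
      rcases le_or_gt 0 j with h | h
      · positivity
      · nlinarith
    rw [Int.toNat_of_nonneg (h0 _), Int.toNat_of_nonneg (h0 _)]
    have : (k + 1) * (5 * (k + 1) + 1) = k * (5 * k + 1) + (5 * k + 3) * 2 := by ring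
    rw [this, Int.add_mul_ediv_right _ _ (by norm_num)]
    ring
  have main : ∀ n : ℕ, aa x n = RR x (fun k => (k * (5 * k + 1) / 2).toNat) 0 n ∧
      aa x (n + 1) = RR x (fun k => (k * (5 * k + 1) / 2).toNat) 0 (n + 1) := by
    intro n
    induction n with
    | zero =>
      constructor
      · simp [aa, RR, TT, gbz, gb]
      · have : Icc (-((0 + 1 : ℕ) : ℤ)) ((0 + 1 : ℕ) : ℤ) = {-1, 0, 1} := by decide
        rw [RR, this]
        simp [aa, TT, gbz, gb]
    | succ n ih =>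
      refine ⟨ih.2, ?_⟩
      have := RR_rec x (fun k => (k * (5 * k + 1) / 2).toNat) 0 (Or.inl rfl) he n
      rw [this, ← ih.1, ← ih.2]
      simp [aa]
  rw [(main n).1]
  unfold RR TT
  simp

theorem StB_proof : StB := by
  intro x n
  have he : ∀ k : ℤ, (((k + 1) * (5 * (k + 1) - 3) / 2).toNat : ℤ) =
      ((k * (5 * k - 3) / 2).toNat : ℤ) + 5 * k + 3 - 2 * 1 := by
    intro k
    have h0 : ∀ j : ℤ, 0 ≤ j * (5 * j - 3) / 2 := by
      intro j
      apply Int.ediv_nonneg _ (by norm_num)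
      rcases lt_trichotomy 0 j with h | h | h
      · nlinarith
      · subst h; simp
      · nlinarith
    rw [Int.toNat_of_nonneg (h0 _), Int.toNat_of_nonneg (h0 _)]
    have : (k + 1) * (5 * (k + 1) - 3) = k * (5 * k - 3) + (5 * k + 1) * 2 := by ring
    rw [this, Int.add_mul_ediv_right _ _ (by norm_num)]
    ring
  have main : ∀ n : ℕ, bb x n = RR x (fun k => (k * (5 * k - 3) / 2).toNat) 1 n ∧
      bb x (n + 1) = RR x (fun k => (k * (5 * k - 3) / 2).toNat) 1 (n + 1) := by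
    intro n
    induction n with
    | zero =>
      constructor
      · simp [bb, RR, TT, gbz, gb]
      · have : Icc (-((0 + 1 : ℕ) : ℤ)) ((0 + 1 : ℕ) : ℤ) = {-1, 0, 1} := by decide
        rw [RR, this]
        simp [bb, TT, gbz, gb]
    | succ n ih =>
      refine ⟨ih.2, ?_⟩
      have := RR_rec x (fun k => (k * (5 * k - 3) / 2).toNat) 1 (Or.inr rfl) he n
      rw [this, ← ih.1, ← ih.2]
      simp [bb]
  rw [(main n).1]
  unfold RR TT
  simp

end Pool.Agent.Y555.RR
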